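import Pool.Agent.SingleUlt.Ult

/-! # Definable relations over the universe -/

namespace Pool.Agent.SingleUlt

open Function Filter

universe u w

/-- `R` is a relation of `n` arguments over the universe which is first-order definable without
parameters -/
def Dfn (n : ℕ) (R : (Fin n → ZFSet.{u}) → Prop) : Prop :=
  ∃ φ : Fml, ∀ v : ℕ → ZFSet.{u}, φ.Tr v ↔ R (fun i => v i)

variable {n : ℕ}

theorem Dfn.mem (i j : Fin n) : Dfn n (fun v : Fin n → ZFSet.{u} => v i ∈ v j) :=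
  ⟨.mem i j, fun _ => Iff.rfl⟩

theorem Dfn.eq (i j : Fin n) : Dfn n (fun v : Fin n → ZFSet.{u} => v i = v j) :=
  ⟨.eq i j, fun _ => Iff.rfl⟩

theorem Dfn.not {R : (Fin n → ZFSet.{u}) → Prop} (h : Dfn n R) : Dfn n (fun v => ¬ R v) := by
  obtain ⟨φ, hφ⟩ := h
  exact ⟨.neg φ, fun v => not_congr (hφ v)⟩

theorem Dfn.and {R S : (Fin n → ZFSet.{u}) → Prop} (h : Dfn n R) (h' : Dfn n S) :
    Dfn n (fun v => R v ∧ S v) := by
  obtain ⟨φ, hφ⟩ := h
  obtain ⟨ψ, hψ⟩ := h'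
  exact ⟨.and φ ψ, fun v => and_congr (hφ v) (hψ v)⟩

theorem Dfn.congr {R S : (Fin n → ZFSet.{u}) → Prop} (h : Dfn n R) (h' : ∀ v, R v ↔ S v) :
    Dfn n S := by
  have : R = S := funext fun v => propext (h' v)
  rwa [← this]

theorem Dfn.or {R S : (Fin n → ZFSet.{u}) → Prop} (h : Dfn n R) (h' : Dfn n S) :
    Dfn n (fun v => R v ∨ S v) :=
  (h.not.and h'.not).not.congr fun v => by tauto

theorem Dfn.imp {R S : (Fin n → ZFSet.{u}) → Prop} (h : Dfn n R) (h' : Dfn n S) :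
    Dfn n (fun v => R v → S v) :=
  (h.not.or h').congr fun v => by tauto

theorem Dfn.iff {R S : (Fin n → ZFSet.{u}) → Prop} (h : Dfn n R) (h' : Dfn n S) :
    Dfn n (fun v => R v ↔ S v) :=
  ((h.imp h').and (h'.imp h)).congr fun v => by tauto

theorem Dfn.all {S : (Fin n → ZFSet.{u}) → ZFSet.{u} → Prop}
    (h : Dfn (n+1) (fun v => S (fun i => v i.castSucc) (v (Fin.last n)))) :
    Dfn n (fun v => ∀ x, S v x) := by
  obtain ⟨φ, hφ⟩ := h
  refine ⟨.all n φ, fun v => ?_⟩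
  show (∀ a, φ.Tr (update v n a)) ↔ _
  refine forall_congr' fun a => ?_
  rw [hφ]
  have h1 : (fun i : Fin n => update v n a ((i.castSucc : Fin (n+1)) : ℕ)) = fun i : Fin n => v i := by
    funext i
    have : ((i.castSucc : Fin (n+1)) : ℕ) ≠ n := by
      rw [Fin.val_castSucc]; exact Nat.ne_of_lt i.2
    rw [update_of_ne this, Fin.val_castSucc]
  have h2 : update v n a ((Fin.last n : Fin (n+1)) : ℕ) = a := by
    rw [Fin.val_last, update_self]
  show S (fun i : Fin n => update v n a ((i.castSucc : Fin (n+1)) : ℕ))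
    (update v n a ((Fin.last n : Fin (n+1)) : ℕ)) ↔ _
  rw [h1, h2]

theorem Dfn.ex {S : (Fin n → ZFSet.{u}) → ZFSet.{u} → Prop}
    (h : Dfn (n+1) (fun v => S (fun i => v i.castSucc) (v (Fin.last n)))) :
    Dfn n (fun v => ∃ x, S v x) :=
  (Dfn.all (S := fun v x => ¬ S v x) h.not).not.congr fun v => by push Not; rfl

/-- bounded quantifiers -/
theorem Dfn.ball {S : (Fin n → ZFSet.{u}) → ZFSet.{u} → Prop} (j : Fin n)
    (h : Dfn (n+1) (fun v => S (fun i => v i.castSucc) (v (Fin.last n)))) :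
    Dfn n (fun v => ∀ x, x ∈ v j → S v x) :=
  Dfn.all (S := fun v x => x ∈ v j → S v x) ((Dfn.mem _ _).imp h)

theorem Dfn.bex {S : (Fin n → ZFSet.{u}) → ZFSet.{u} → Prop} (j : Fin n)
    (h : Dfn (n+1) (fun v => S (fun i => v i.castSucc) (v (Fin.last n)))) :
    Dfn n (fun v => ∃ x, x ∈ v j ∧ S v x) :=
  Dfn.ex (S := fun v x => x ∈ v j ∧ S v x) ((Dfn.mem _ _).and h)

theorem Dfn.sub (i j : Fin n) : Dfn n (fun v : Fin n → ZFSet.{u} => v i ⊆ v j) :=
  (Dfn.ball (S := fun v x => x ∈ v j) i (Dfn.mem _ _)).congr fun _ => Iff.rfl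

/-- `v p = {v a}` -/
theorem Dfn.sing (p a : Fin n) : Dfn n (fun v : Fin n → ZFSet.{u} => v p = {v a}) :=
  (Dfn.all (S := fun v x => x ∈ v p ↔ x = v a) ((Dfn.mem _ _).iff (Dfn.eq _ _))).congr fun v => by
    rw [ZFSet.ext_iff]; simp

theorem Dfn.upair (p a b : Fin n) : Dfn n (fun v : Fin n → ZFSet.{u} => v p = {v a, v b}) :=
  (Dfn.all (S := fun v x => x ∈ v p ↔ (x = v a ∨ x = v b))
    ((Dfn.mem _ _).iff ((Dfn.eq _ _).or (Dfn.eq _ _)))).congr fun v => by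
    rw [ZFSet.ext_iff]; simp

theorem Dfn.pair (p a b : Fin n) :
    Dfn n (fun v : Fin n → ZFSet.{u} => v p = ZFSet.pair (v a) (v b)) :=
  (Dfn.all (S := fun v x => x ∈ v p ↔ (x = {v a} ∨ x = {v a, v b}))
    ((Dfn.mem _ _).iff ((Dfn.sing _ _).or (Dfn.upair _ _ _)))).congr fun v => by
    rw [ZFSet.ext_iff]; simp [ZFSet.pair]

theorem Dfn.pairMem (a b f : Fin n) :
    Dfn n (fun v : Fin n → ZFSet.{u} => ZFSet.pair (v a) (v b) ∈ v f) :=
  (Dfn.bex (S := fun v x => x = ZFSet.pair (v a) (v b)) f (Dfn.pair _ _ _)).congr fun v => by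
    constructor
    · rintro ⟨x, hx, rfl⟩; exact hx
    · intro h; exact ⟨_, h, rfl⟩

theorem Dfn.trans (x : Fin n) : Dfn n (fun v : Fin n → ZFSet.{u} => (v x).IsTransitive) :=
  (Dfn.ball (S := fun v y => y ⊆ v x) x (Dfn.sub _ _)).congr fun _ => Iff.rfl

theorem Dfn.ord (x : Fin n) : Dfn n (fun v : Fin n → ZFSet.{u} => (v x).IsOrdinal) :=
  ((Dfn.trans x).and (Dfn.ball (S := fun v y => y.IsTransitive) x (Dfn.trans _))).congr fun v => by
    rw [ZFSet.isOrdinal_iff_forall_mem_isTransitive]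

end Pool.Agent.SingleUlt
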