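import Pool.Agent.SingleUlt.Code

/-! # Coded ultrapowers and ultrapowers on types -/

namespace Pool.Agent.SingleUlt

open Function Filter

universe u w w'

/-! ## from codes to types -/

section ToType

variable {I U : ZFSet.{u}}

/-- the filter on the type of elements of `I` generated by the members of `U` -/
def toFilter (h : cUF I U) : Filter I where
  sets := {S | ∃ X, X ∈ U ∧ ∀ i : I, (i : ZFSet.{u}) ∈ X → i ∈ S}
  univ_sets := by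
    obtain ⟨X, hX⟩ := h.1
    exact ⟨X, hX, fun _ _ => trivial⟩
  sets_of_superset := by
    rintro S T ⟨X, hX, hS⟩ hST
    exact ⟨X, hX, fun i hi => hST (hS i hi)⟩
  inter_sets := by
    rintro S T ⟨X, hX, hS⟩ ⟨Y, hY, hT⟩
    obtain ⟨Z, hZ, hZ'⟩ := h.2.1 X hX Y hY
    exact ⟨Z, hZ, fun i hi => ⟨hS i (hZ' _ hi).1, hT i (hZ' _ hi).2⟩⟩

theorem mem_toFilter (h : cUF I U) {S : Set I} :
    S ∈ toFilter h ↔ ∃ X, X ∈ U ∧ ∀ i : I, (i : ZFSet.{u}) ∈ X → i ∈ S := Iff.rfl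

noncomputable def toUF (h : cUF I U) : Ultrafilter I :=
  Ultrafilter.ofComplNotMemIff (toFilter h) (by
    intro S
    constructor
    · intro hS
      rcases h.2.2.2 (ZFSet.sep (fun z => ∃ hz : z ∈ I, (⟨z, hz⟩ : I) ∈ S) I) with
        ⟨X, hX, hX'⟩ | ⟨X, hX, hX'⟩
      · refine ⟨X, hX, fun i hi => ?_⟩
        have := hX' i hi i.2
        rw [ZFSet.mem_sep] at this
        obtain ⟨_, hz, hS⟩ := this
        exact hS
      · exfalso
        apply hS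
        refine ⟨X, hX, fun i hi hiS => ?_⟩
        exact hX' i hi i.2 (by rw [ZFSet.mem_sep]; exact ⟨i.2, i.2, hiS⟩)
    · rintro hS hS'
      have := (toFilter h).inter_sets hS hS'
      rw [Set.inter_compl_self] at this
      obtain ⟨X, hX, hX'⟩ := this
      obtain ⟨i, hi, hi'⟩ := h.2.2.1 X hX
      exact hX' ⟨i, hi'⟩ hi)

theorem mem_toUF (h : cUF I U) {S : Set I} :
    S ∈ (toUF h : Filter I) ↔ ∃ X, X ∈ U ∧ ∀ i : I, (i : ZFSet.{u}) ∈ X → i ∈ S := Iff.rfl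

/-- the function `φ` is represented by the set `f` -/
def Rep (f : ZFSet.{u}) (φ : I → ZFSet.{u}) : Prop :=
  ∀ i : I, ∀ b, ZFSet.pair i b ∈ f ↔ b = φ i

theorem Rep.fn {f : ZFSet.{u}} {φ : I → ZFSet.{u}} (h : Rep f φ) : Fun I f :=
  fun i hi => ⟨φ ⟨i, hi⟩, (h ⟨i, hi⟩ _).2 rfl, fun b hb => (h ⟨i, hi⟩ b).1 hb⟩

theorem Fun.rep {f : ZFSet.{u}} (h : Fun I f) : ∃ φ : I → ZFSet.{u}, Rep f φ := by
  have : ∀ i : I, ∃ a, ZFSet.pair i a ∈ f ∧ ∀ b, ZFSet.pair i b ∈ f → b = a :=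
    fun i => h i i.2
  choose φ h1 h2 using this
  exact ⟨φ, fun i b => ⟨fun hb => h2 i b hb, fun hb => by rw [hb]; exact h1 i⟩⟩

/-- the graph of a function -/
noncomputable def graph (φ : I → ZFSet.{u}) : ZFSet.{u} :=
  ZFSet.range fun i : I => ZFSet.pair i (φ i)

theorem rep_graph (φ : I → ZFSet.{u}) : Rep (graph φ) φ := by
  intro i b
  rw [graph, ZFSet.mem_range]
  constructor
  · rintro ⟨j, hj⟩
    rw [ZFSet.pair_inj] at hj
    have : j = i := Subtype.ext hj.1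
    subst this
    exact hj.2.symm
  · rintro rfl
    exact ⟨i, rfl⟩

theorem cE_iff (h : cUF I U) {f g : ZFSet.{u}} {φ γ : I → ZFSet.{u}} (hf : Rep f φ)
    (hg : Rep g γ) : cE I U g f ↔ UE (toUF h) γ φ := by
  unfold UE cE
  rw [Filter.Eventually, mem_toUF]
  constructor
  · rintro ⟨X, hX, hX'⟩
    refine ⟨X, hX, fun i hi => ?_⟩
    obtain ⟨a, b, ha, hb, hab⟩ := hX' i hi i.2
    rw [hg i] at ha
    rw [hf i] at hb
    subst ha hb
    exact hab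
  · rintro ⟨X, hX, hX'⟩
    refine ⟨X, hX, fun i hi hiI => ?_⟩
    exact ⟨γ ⟨i, hiI⟩, φ ⟨i, hiI⟩, (hg ⟨i, hiI⟩ _).2 rfl, (hf ⟨i, hiI⟩ _).2 rfl, hX' ⟨i, hiI⟩ hi⟩

theorem cQ_iff (h : cUF I U) {f g : ZFSet.{u}} {φ γ : I → ZFSet.{u}} (hf : Rep f φ)
    (hg : Rep g γ) : cQ I U g f ↔ UQ (toUF h) γ φ := by
  unfold UQ cQ
  rw [Filter.Eventually, mem_toUF]
  constructor
  · rintro ⟨X, hX, hX'⟩
    refine ⟨X, hX, fun i hi => ?_⟩
    obtain ⟨a, ha, hb⟩ := hX' i hi i.2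
    rw [hg i] at ha
    rw [hf i] at hb
    exact ha.symm.trans hb
  · rintro ⟨X, hX, hX'⟩
    refine ⟨X, hX, fun i hi hiI => ?_⟩
    refine ⟨γ ⟨i, hiI⟩, (hg ⟨i, hiI⟩ _).2 rfl, (hf ⟨i, hiI⟩ _).2 ?_⟩
    exact hX' ⟨i, hiI⟩ hi

theorem cCol_iff (h : cUF I U) {f x : ZFSet.{u}} {φ : I → ZFSet.{u}} (hf : Rep f φ) :
    cCol I U f x ↔ Coll (toUF h) φ x := by
  constructor
  · rintro ⟨B, hfx, hB⟩
    refine ⟨fun φ' x' => ∃ f', ∃ ψ, Rep f' ψ ∧ ZFSet.pair f' x' ∈ B ∧ UQ (toUF h) φ' ψ, ?_,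
      f, φ, hf, hfx, UQ.refl φ⟩
    rintro φ' x' ⟨f', ψ, hrep, hp, hq⟩
    obtain ⟨-, h1, h2⟩ := hB f' x' hp
    constructor
    · intro γ hγ
      have hγ' : UE (toUF h) γ ψ := hγ.congr (UQ.refl γ) hq
      obtain ⟨g', y, hp', hq', hy⟩ := h1 (graph γ) (rep_graph γ).fn
        ((cE_iff h hrep (rep_graph γ)).2 hγ')
      obtain ⟨χ, hχ⟩ := (hB g' y hp').1.rep
      exact ⟨y, hy, g', χ, hχ, hp', (cQ_iff h hχ (rep_graph γ)).1 hq'⟩
    · intro y hy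
      obtain ⟨g, hg, hE, hp'⟩ := h2 y hy
      obtain ⟨χ, hχ⟩ := hg.rep
      exact ⟨χ, ((cE_iff h hrep hχ).1 hE).congr (UQ.refl χ) hq.symm, g, χ, hχ, hp', UQ.refl χ⟩
  · intro hC
    -- transitive sets containing all the values of `φ`, and `x`
    obtain ⟨ρ, hρ⟩ : ∃ ρ, ZFSet.range φ ∈ ZFSet.vonNeumann ρ := ZFSet.exists_mem_vonNeumann _
    obtain ⟨σ, hσ⟩ : ∃ σ, x ∈ ZFSet.vonNeumann σ := ZFSet.exists_mem_vonNeumann _
    set D := ZFSet.vonNeumann ρ with hD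
    set D' := ZFSet.vonNeumann σ with hD'
    have trD : D.IsTransitive := ZFSet.isTransitive_vonNeumann ρ
    have trD' : D'.IsTransitive := ZFSet.isTransitive_vonNeumann σ
    have hφD : ∀ i, φ i ∈ D := fun i =>
      trD.mem_trans (ZFSet.mem_range.2 ⟨i, rfl⟩) hρ
    have h0D : (∅ : ZFSet.{u}) ∈ D := by
      rw [hD, ZFSet.mem_vonNeumann, ZFSet.rank_empty]
      rw [hD, ZFSet.mem_vonNeumann] at hρ
      exact lt_of_le_of_lt (zero_le) hρ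
    -- the relation
    set P : ZFSet.{u} → ZFSet.{u} → Prop := fun f' x' =>
      (f' = f ∧ x' = x) ∨ (x' ∈ D' ∧ ∃ ψ : I → ZFSet.{u}, (∀ i, ψ i ∈ D) ∧ f' = graph ψ ∧
        Coll (toUF h) ψ x') with hP
    obtain ⟨R, hR⟩ : ∃ R : ZFSet.{u}, ∀ f' x', ZFSet.pair f' x' ∈ R ↔ P f' x' := by
      refine ⟨insert (ZFSet.pair f x) (ZFSet.sep (fun p => ∃ f' x', p = ZFSet.pair f' x' ∧
        (x' ∈ D' ∧ ∃ ψ : I → ZFSet.{u}, (∀ i, ψ i ∈ D) ∧ f' = graph ψ ∧ Coll (toUF h) ψ x'))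
        (ZFSet.prod (ZFSet.powerset (ZFSet.prod I D)) D')), ?_⟩
      intro f' x'
      rw [ZFSet.mem_insert_iff, ZFSet.pair_inj, ZFSet.mem_sep, ZFSet.pair_mem_prod]
      constructor
      · rintro (h1 | ⟨-, f'', x'', hpp, h2⟩)
        · exact Or.inl h1
        · rw [ZFSet.pair_inj] at hpp
          rw [hpp.1, hpp.2]
          exact Or.inr h2
      · rintro (h1 | h2)
        · exact Or.inl h1
        · refine Or.inr ⟨⟨?_, h2.1⟩, f', x', rfl, h2⟩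
          obtain ⟨-, ψ, hψ, rfl, -⟩ := h2
          rw [ZFSet.mem_powerset]
          intro p hp
          rw [graph, ZFSet.mem_range] at hp
          obtain ⟨i, rfl⟩ := hp
          rw [ZFSet.pair_mem_prod]
          exact ⟨i.2, hψ i⟩
    refine ⟨R, (hR f x).2 (Or.inl ⟨rfl, rfl⟩), ?_⟩
    intro f' x' hp
    rw [hR] at hp
    have hdata : ∃ ψ : I → ZFSet.{u}, (∀ i, ψ i ∈ D) ∧ Rep f' ψ ∧ Coll (toUF h) ψ x' ∧ x' ∈ D' := by
      rcases hp with ⟨rfl, rfl⟩ | ⟨hx', ψ, hψ, rfl, hC'⟩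
      · exact ⟨φ, hφD, hf, hC, hσ⟩
      · exact ⟨ψ, hψ, rep_graph ψ, hC', hx'⟩
    obtain ⟨ψ, hψD, hrep, hcoll, hx'⟩ := hdata
    -- truncation of members
    have trunc : ∀ γ : I → ZFSet.{u}, UE (toUF h) γ ψ → ∀ y, y ∈ x' → Coll (toUF h) γ y →
        ∃ γ' : I → ZFSet.{u}, UQ (toUF h) γ γ' ∧ ZFSet.pair (graph γ') y ∈ R := by
      intro γ hγ y hy hcy
      classical
      refine ⟨fun i => if γ i ∈ ψ i then γ i else ∅, ?_, ?_⟩
      · filter_upwards [hγ] with i hi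
        rw [if_pos hi]
      · rw [hR]
        refine Or.inr ⟨trD'.mem_trans hy hx', _, ?_, rfl, hcy.congr ?_⟩
        · intro i
          by_cases hi : γ i ∈ ψ i
          · rw [if_pos hi]; exact trD.mem_trans hi (hψD i)
          · rw [if_neg hi]; exact h0D
        · filter_upwards [hγ] with i hi
          rw [if_pos hi]
    refine ⟨hrep.fn, ?_, ?_⟩
    · intro g hg hE
      obtain ⟨γ, hγ⟩ := hg.rep
      have hE' := (cE_iff h hrep hγ).1 hE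
      obtain ⟨y, hy, hcy⟩ := hcoll.fst hE'
      obtain ⟨γ', hq, hp'⟩ := trunc γ hE' y hy hcy
      exact ⟨graph γ', y, hp', (cQ_iff h (rep_graph γ') hγ).2 hq, hy⟩
    · intro y hy
      obtain ⟨γ, hE', hcy⟩ := hcoll.snd hy
      obtain ⟨γ', hq, hp'⟩ := trunc γ hE' y hy hcy
      refine ⟨graph γ', (rep_graph γ').fn, ?_, hp'⟩
      rw [cE_iff h hrep (rep_graph γ')]
      exact hE'.congr hq (UQ.refl ψ)

theorem cN_tot (h : cN I U) : ∀ φ : I → ZFSet.{u}, ∃ x, Coll (toUF h.1) φ x := by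
  intro φ
  obtain ⟨x, hx⟩ := h.2 (graph φ) (rep_graph φ).fn
  exact ⟨x, (cCol_iff h.1 (rep_graph φ)).1 hx⟩

theorem cInM_iff (h : cUF I U) {x : ZFSet.{u}} : cInM I U x ↔ ∃ φ, Coll (toUF h) φ x := by
  constructor
  · rintro ⟨f, hf, hc⟩
    obtain ⟨φ, hφ⟩ := hf.rep
    exact ⟨φ, (cCol_iff h hφ).1 hc⟩
  · rintro ⟨φ, hφ⟩
    exact ⟨graph φ, (rep_graph φ).fn, (cCol_iff h (rep_graph φ)).2 hφ⟩

theorem cJ_iff (h : cUF I U) {α x : ZFSet.{u}} : cJ I U α x ↔ Coll (toUF h) (fun _ => α) x := by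
  constructor
  · rintro ⟨f, hf, hα, hc⟩
    refine (cCol_iff h ?_).1 hc
    obtain ⟨φ, hφ⟩ := hf.rep
    intro i b
    rw [hφ i]
    have := hα i i.2
    rw [hφ i] at this
    rw [this]
  · intro hc
    have h1 : Rep (graph fun _ : I => α) (fun _ : I => α) := rep_graph _
    refine ⟨graph fun _ : I => α, h1.fn, ?_, (cCol_iff h h1).2 hc⟩
    intro i hi
    have h2 := h1 ⟨i, hi⟩ α
    exact h2.2 rfl

end ToType

end Pool.Agent.SingleUlt
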