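import Pool.Agent.SingleUlt.Def

/-! # Ultrapowers coded by sets -/

namespace Pool.Agent.SingleUlt

open Function Filter

universe u w

/-- `f` is (the graph of) a function on `I` -/
def Fun (I f : ZFSet.{u}) : Prop :=
  ∀ i, i ∈ I → ∃ a, ZFSet.pair i a ∈ f ∧ ∀ b, ZFSet.pair i b ∈ f → b = a

def cE (I U g f : ZFSet.{u}) : Prop :=
  ∃ X, X ∈ U ∧ ∀ i, i ∈ X → i ∈ I → ∃ a, ∃ b, ZFSet.pair i a ∈ g ∧ ZFSet.pair i b ∈ f ∧ a ∈ b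

def cQ (I U g f : ZFSet.{u}) : Prop :=
  ∃ X, X ∈ U ∧ ∀ i, i ∈ X → i ∈ I → ∃ a, ZFSet.pair i a ∈ g ∧ ZFSet.pair i a ∈ f

def cCol (I U f x : ZFSet.{u}) : Prop :=
  ∃ B : ZFSet.{u}, ZFSet.pair f x ∈ B ∧ ∀ f', ∀ x', ZFSet.pair f' x' ∈ B → Fun I f' ∧
    (∀ g, Fun I g → cE I U g f' → ∃ g', ∃ y, ZFSet.pair g' y ∈ B ∧ cQ I U g g' ∧ y ∈ x') ∧
    (∀ y, y ∈ x' → ∃ g, Fun I g ∧ cE I U g f' ∧ ZFSet.pair g y ∈ B)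

def cUF (I U : ZFSet.{u}) : Prop :=
  (∃ X, X ∈ U) ∧
  (∀ X, X ∈ U → ∀ Y, Y ∈ U → ∃ Z, Z ∈ U ∧ ∀ i, i ∈ Z → i ∈ X ∧ i ∈ Y) ∧
  (∀ X, X ∈ U → ∃ i, i ∈ X ∧ i ∈ I) ∧
  (∀ S : ZFSet.{u}, (∃ X, X ∈ U ∧ ∀ i, i ∈ X → i ∈ I → i ∈ S) ∨ (∃ X, X ∈ U ∧ ∀ i, i ∈ X → i ∈ I → ¬ i ∈ S))

def cN (I U : ZFSet.{u}) : Prop := cUF I U ∧ ∀ f, Fun I f → ∃ x, cCol I U f x

def cInM (I U x : ZFSet.{u}) : Prop := ∃ f, Fun I f ∧ cCol I U f x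

def cJ (I U α x : ZFSet.{u}) : Prop :=
  ∃ f, Fun I f ∧ (∀ i, i ∈ I → ZFSet.pair i α ∈ f) ∧ cCol I U f x

def cP (α : ZFSet.{u}) : Prop :=
  ∃ I, ∃ U, ∃ J, ∃ W, cN I U ∧ cN J W ∧ (∀ x, cInM I U x ↔ cInM J W x) ∧
    ∃ x, cJ I U α x ∧ ¬ cJ J W α x

section Definability

variable {n : ℕ}

theorem Dfn.fn (I f : Fin n) : Dfn n (fun v : Fin n → ZFSet.{u} => Fun (v I) (v f)) :=
  Dfn.ball _ (Dfn.ex ((Dfn.pairMem _ _ _).and (Dfn.all ((Dfn.pairMem _ _ _).imp (Dfn.eq _ _)))))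

theorem Dfn.cE (I U g f : Fin n) :
    Dfn n (fun v : Fin n → ZFSet.{u} => cE (v I) (v U) (v g) (v f)) :=
  Dfn.bex _ (Dfn.ball _ ((Dfn.mem _ _).imp (Dfn.ex (Dfn.ex ((Dfn.pairMem _ _ _).and
    ((Dfn.pairMem _ _ _).and (Dfn.mem _ _)))))))

theorem Dfn.cQ (I U g f : Fin n) :
    Dfn n (fun v : Fin n → ZFSet.{u} => cQ (v I) (v U) (v g) (v f)) :=
  Dfn.bex _ (Dfn.ball _ ((Dfn.mem _ _).imp (Dfn.ex ((Dfn.pairMem _ _ _).and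
    (Dfn.pairMem _ _ _)))))

theorem Dfn.cCol (I U f x : Fin n) :
    Dfn n (fun v : Fin n → ZFSet.{u} => cCol (v I) (v U) (v f) (v x)) :=
  Dfn.ex ((Dfn.pairMem _ _ _).and (Dfn.all (Dfn.all ((Dfn.pairMem _ _ _).imp
    ((Dfn.fn _ _).and (((Dfn.all ((Dfn.fn _ _).imp ((Dfn.cE _ _ _ _).imp (Dfn.ex (Dfn.ex
      ((Dfn.pairMem _ _ _).and ((Dfn.cQ _ _ _ _).and (Dfn.mem _ _)))))))).and
      (Dfn.ball _ (Dfn.ex ((Dfn.fn _ _).and ((Dfn.cE _ _ _ _).and (Dfn.pairMem _ _ _))))))))))))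

theorem Dfn.cUF (I U : Fin n) : Dfn n (fun v : Fin n → ZFSet.{u} => cUF (v I) (v U)) :=
  (Dfn.ex (Dfn.mem _ _)).and
  ((Dfn.ball _ (Dfn.ball _ (Dfn.bex _ (Dfn.ball _ ((Dfn.mem _ _).and (Dfn.mem _ _)))))).and
  ((Dfn.ball _ (Dfn.bex _ (Dfn.mem _ _))).and
  (Dfn.all ((Dfn.bex _ (Dfn.ball _ ((Dfn.mem _ _).imp (Dfn.mem _ _)))).or
    (Dfn.bex _ (Dfn.ball _ ((Dfn.mem _ _).imp (Dfn.mem _ _).not)))))))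

theorem Dfn.cN (I U : Fin n) : Dfn n (fun v : Fin n → ZFSet.{u} => cN (v I) (v U)) :=
  (Dfn.cUF _ _).and (Dfn.all ((Dfn.fn _ _).imp (Dfn.ex (Dfn.cCol _ _ _ _))))

theorem Dfn.cInM (I U x : Fin n) : Dfn n (fun v : Fin n → ZFSet.{u} => cInM (v I) (v U) (v x)) :=
  Dfn.ex ((Dfn.fn _ _).and (Dfn.cCol _ _ _ _))

theorem Dfn.cJ (I U a x : Fin n) :
    Dfn n (fun v : Fin n → ZFSet.{u} => cJ (v I) (v U) (v a) (v x)) :=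
  Dfn.ex ((Dfn.fn _ _).and ((Dfn.ball _ (Dfn.pairMem _ _ _)).and (Dfn.cCol _ _ _ _)))

theorem Dfn.cP (a : Fin n) : Dfn n (fun v : Fin n → ZFSet.{u} => cP (v a)) :=
  Dfn.ex (Dfn.ex (Dfn.ex (Dfn.ex ((Dfn.cN _ _).and ((Dfn.cN _ _).and
    ((Dfn.all ((Dfn.cInM _ _ _).iff (Dfn.cInM _ _ _))).and
      (Dfn.ex ((Dfn.cJ _ _ _ _).and (Dfn.cJ _ _ _ _).not))))))))

end Definability

end Pool.Agent.SingleUlt
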