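import Pool.Agent.SingleUlt.Normal2

/-! # How many normal measures can share one ultrapower -/

namespace Pool.Agent.SingleUlt

open Function Filter Cardinal Ordinal

universe u w w'

/-- `x` is ordinal definable from `A`: for some formula `φ` and ordinals `α_2, α_3, ...`, the set
`x` is the unique `y` with `φ(y, A, α_2, α_3, ...)`. -/
def ODFrom (A x : ZFSet.{u}) : Prop :=
  ∃ (φ : Fml) (v : ℕ → ZFSet.{u}), v 1 = A ∧ (∀ n, 2 ≤ n → (v n).IsOrdinal) ∧
    ∀ y, φ.Tr (update v 0 y) ↔ y = x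

/-- `x` is ordinal definable -/
def OD (x : ZFSet.{u}) : Prop := ODFrom ∅ x

variable {κ : Cardinal.{u}} {U W : Ultrafilter (Idx κ)}

theorem IsNormalMeasure.coll_emb (h : IsNormalMeasure κ U) (x : ZFSet.{u}) :
    Coll U (fun _ => x) (emb U x) := coll_col h.tot _

theorem IsNormalMeasure.emb_eq_iff (hU : IsNormalMeasure κ U) (hW : IsNormalMeasure κ W)
    (x : ZFSet.{u}) : emb U x = emb W x ↔
      ∀ z, Coll U (fun _ => x) z → Coll W (fun _ => x) z := by
  constructor
  · intro h z hz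
    rw [← (hU.coll_emb x).unique hz, h]
    exact hW.coll_emb x
  · intro h
    exact (h _ (hU.coll_emb x)).unique (hW.coll_emb x)

theorem mod_iff (hU : IsNormalMeasure κ U) (hW : IsNormalMeasure κ W) (hM : Mod U = Mod W)
    (x : ZFSet.{u}) : (∃ f, Coll U f x) ↔ ∃ g, Coll W g x := by
  rw [← mem_Mod hU.tot, ← mem_Mod hW.tot, hM]

/-- the embeddings agree on ordinals -/
theorem emb_ord (hU : IsNormalMeasure κ U) (hW : IsNormalMeasure κ W) (hM : Mod U = Mod W)
    {α : ZFSet.{u}} (hα : α.IsOrdinal) : emb U α = emb W α := by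
  rw [hU.emb_eq_iff hW]
  intro z hz
  exact agree_ord o_injective o_injective hU.tot hW.tot (mod_iff hU hW hM) hα hz

theorem emb_ODFrom (hU : IsNormalMeasure κ U) (hW : IsNormalMeasure κ W) (hM : Mod U = Mod W)
    {A x : ZFSet.{u}} (hA : emb U A = emb W A) (hx : ODFrom A x) : emb U x = emb W x := by
  obtain ⟨φ, v, h1, h2, h3⟩ := hx
  rw [hU.emb_eq_iff hW]
  refine agree_def hU.tot hW.tot (mod_iff hU hW hM) h3 ?_
  intro n hn
  rw [← hU.emb_eq_iff hW]
  rcases Nat.lt_or_ge n 2 with h | h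
  · have : n = 1 := by omega
    subst this
    rw [h1, hA]
  · exact emb_ord hU hW hM (h2 n h)

theorem emb_OD (hU : IsNormalMeasure κ U) (hW : IsNormalMeasure κ W) (hM : Mod U = Mod W)
    {x : ZFSet.{u}} (hx : OD x) : emb U x = emb W x :=
  emb_ODFrom hU hW hM (emb_ord hU hW hM ZFSet.isOrdinal_empty) hx

theorem mem_iff_of_emb_eq (hU : IsNormalMeasure κ U) (hW : IsNormalMeasure κ W)
    {X : ZFSet.{u}} (h : emb U X = emb W X) : {i | o i ∈ X} ∈ U ↔ {i | o i ∈ X} ∈ W := by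
  rw [hU.mem_iff X (hU.coll_emb X), hW.mem_iff X (hW.coll_emb X), h]

/-- if every subset of `κ` is ordinal definable from `A`, a normal measure `W` is determined by
its ultrapower and by `j_W(A)` -/
theorem eq_of_emb_eq (hU : IsNormalMeasure κ U) (hW : IsNormalMeasure κ W) (hM : Mod U = Mod W)
    {A : ZFSet.{u}} (hP : ∀ X : ZFSet.{u}, X ⊆ kap κ → ODFrom A X) (hA : emb U A = emb W A) :
    U = W :=
  ultrafilter_ext fun X hX => (mem_iff_of_emb_eq hU hW (emb_ODFrom hU hW hM hA (hP X hX))).1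

theorem emb_mem_iff (hU : IsNormalMeasure κ U) {A H : ZFSet.{u}} :
    emb U A ∈ emb U H ↔ A ∈ H := by
  rw [← (hU.coll_emb H).mem_iff (hU.coll_emb A)]
  unfold UE
  simp

theorem mk_Idx (κ : Cardinal.{u}) : #(Idx κ) = Cardinal.lift.{u+1} κ := by
  rw [Cardinal.mk_Iio_ordinal, Cardinal.card_ord]

/-- **Counting theorem.** -/
theorem card_class_le (hU : IsNormalMeasure κ U) {H A : ZFSet.{u}} (hH : OD H) (hA : A ∈ H)
    (hP : ∀ X : ZFSet.{u}, X ⊆ kap κ → ODFrom A X) :
    #{W : Ultrafilter (Idx κ) // IsNormalMeasure κ W ∧ Mod W = Mod U} ≤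
      Cardinal.lift.{u+1} (H.card ^ κ) := by
  have key : ∀ W : {W : Ultrafilter (Idx κ) // IsNormalMeasure κ W ∧ Mod W = Mod U},
      ∃ f : Idx κ → H, Coll U (fun i => (f i : ZFSet.{u})) (emb W.1 A) := by
    rintro ⟨W, hW, hM⟩
    have h1 : emb W A ∈ Mod U := by
      rw [← hM]
      exact ⟨_, rfl⟩
    rw [mem_Mod hU.tot] at h1
    obtain ⟨g, hg⟩ := h1
    have h2 : emb W A ∈ emb U H := by
      rw [emb_OD hU hW hM.symm hH, emb_mem_iff hW]
      exact hA
    have h3 : UE U g (fun _ => H) := ((hU.coll_emb H).mem_iff hg).2 h2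
    classical
    refine ⟨fun i => if hi : g i ∈ H then ⟨g i, hi⟩ else ⟨A, hA⟩, hg.congr ?_⟩
    filter_upwards [h3] with i hi
    rw [dif_pos hi]
  choose F hF using key
  have inj : Injective F := by
    rintro ⟨W, hW, hM⟩ ⟨W', hW', hM'⟩ h
    have h1 := hF ⟨W, hW, hM⟩
    have h2 := hF ⟨W', hW', hM'⟩
    rw [h] at h1
    have h3 : emb W A = emb W' A := h1.unique h2
    have := eq_of_emb_eq hW hW' (hM.trans hM'.symm) hP h3
    subst this
    rfl
  refine (mk_le_of_injective inj).trans (le_of_eq ?_)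
  rw [← Cardinal.power_def, mk_Idx, ZFSet.cardinalMk_coe_sort, Cardinal.lift_power]

end Pool.Agent.SingleUlt
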