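import Pool.Agent.SingleUlt.Woodin

/-! # Normal measures and their ultrapowers -/

namespace Pool.Agent.SingleUlt

open Function Filter Cardinal Ordinal

universe u w w'

/-- the ordinals below `κ` -/
abbrev Idx (κ : Cardinal.{u}) : Type (u+1) := Set.Iio κ.ord

/-- `U` is a normal measure on the uncountable cardinal `κ`: a nonprincipal `κ`-complete
ultrafilter on `κ` closed under diagonal intersections. -/
structure IsNormalMeasure (κ : Cardinal.{u}) (U : Ultrafilter (Idx κ)) : Prop where
  uncountable : ℵ₀ < κ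
  nonprincipal : ∀ a : Idx κ, ({a}ᶜ : Set (Idx κ)) ∈ U
  complete : ∀ S : Set (Set (Idx κ)), Cardinal.mk S < Cardinal.lift.{u+1} κ →
    (∀ s ∈ S, s ∈ U) → ⋂₀ S ∈ U
  normal : ∀ X : Idx κ → Set (Idx κ), (∀ a, X a ∈ U) → {b | ∀ a, a < b → b ∈ X a} ∈ U

/-- `π` is the transitive collapse of the ultrapower of the universe by `U` (a class `[f]` of a
function `f` on the index set is sent to `π f`, and `π f = {π g : [g] E [f]}`). -/
def IsCollapse {I : Type w} (U : Ultrafilter I) (π : (I → ZFSet.{u}) → ZFSet.{u}) : Prop :=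
  ∀ f x, x ∈ π f ↔ ∃ g, (∀ᶠ i in (U : Filter I), g i ∈ f i) ∧ π g = x

open Classical in
/-- the transitive collapse of the ultrapower by `U`, if it exists -/
noncomputable def col {I : Type w} (U : Ultrafilter I) : (I → ZFSet.{u}) → ZFSet.{u} :=
  if h : ∃ π : (I → ZFSet.{u}) → ZFSet.{u}, IsCollapse U π then h.choose else fun _ => ∅

/-- the target model `M_U` of the ultrapower embedding -/
noncomputable def Mod {κ : Cardinal.{u}} (U : Ultrafilter (Idx κ)) : Set ZFSet.{u} :=
  Set.range (col U)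

/-- the ultrapower embedding `j_U` -/
noncomputable def emb {κ : Cardinal.{u}} (U : Ultrafilter (Idx κ)) (x : ZFSet.{u}) : ZFSet.{u} :=
  col U fun _ => x

section Collapse

variable {I : Type w} {U : Ultrafilter I}

theorem IsCollapse.coll {π : (I → ZFSet.{u}) → ZFSet.{u}} (h : IsCollapse U π)
    (f : I → ZFSet.{u}) : Coll U f (π f) := by
  refine ⟨fun f x => π f = x, ?_, rfl⟩
  rintro f x rfl
  constructor
  · intro g hg
    exact ⟨π g, (h f _).2 ⟨g, hg, rfl⟩, rfl⟩
  · intro y hy
    obtain ⟨g, hg, hg'⟩ := (h f y).1 hy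
    exact ⟨g, hg, hg'⟩

theorem exists_collapse (tot : ∀ f : I → ZFSet.{u}, ∃ x, Coll U f x) :
    ∃ π : (I → ZFSet.{u}) → ZFSet.{u}, IsCollapse U π := by
  choose π hπ using tot
  refine ⟨π, fun f x => ?_⟩
  constructor
  · intro hx
    obtain ⟨g, hg, hgx⟩ := (hπ f).snd hx
    exact ⟨g, hg, (hπ g).unique hgx⟩
  · rintro ⟨g, hg, rfl⟩
    exact ((hπ f).mem_iff (hπ g)).1 hg

theorem col_isCollapse (tot : ∀ f : I → ZFSet.{u}, ∃ x, Coll U f x) :
    IsCollapse U (col U : (I → ZFSet.{u}) → ZFSet.{u}) := by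
  have h := exists_collapse tot
  unfold col
  rw [dif_pos h]
  exact h.choose_spec

theorem coll_col (tot : ∀ f : I → ZFSet.{u}, ∃ x, Coll U f x) (f : I → ZFSet.{u}) :
    Coll U f (col U f) := (col_isCollapse tot).coll f

theorem coll_iff (tot : ∀ f : I → ZFSet.{u}, ∃ x, Coll U f x) (f : I → ZFSet.{u})
    (x : ZFSet.{u}) : Coll U f x ↔ col U f = x := by
  constructor
  · intro h; exact (coll_col tot f).unique h
  · rintro rfl; exact coll_col tot f

theorem IsCollapse.unique {π π' : (I → ZFSet.{u}) → ZFSet.{u}} (h : IsCollapse U π)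
    (h' : IsCollapse U π') : π = π' := by
  funext f
  exact (h.coll f).unique (h'.coll f)

end Collapse

theorem mem_Mod {κ : Cardinal.{u}} {U : Ultrafilter (Idx κ)}
    (tot : ∀ f : Idx κ → ZFSet.{u}, ∃ x, Coll U f x) (x : ZFSet.{u}) :
    x ∈ Mod U ↔ ∃ f, Coll U f x := by
  unfold Mod
  rw [Set.mem_range]
  exact exists_congr fun f => (coll_iff tot f x).symm

/-- countably complete ultrafilters have well-founded ultrapowers -/
theorem tot_of_countably_complete {I : Type w} [Small.{u} I] {U : Ultrafilter I}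
    (hU : ∀ S : ℕ → Set I, (∀ n, S n ∈ U) → (⋂ n, S n) ∈ U) :
    ∀ f : I → ZFSet.{u}, ∃ x, Coll U f x := by
  have wf : WellFounded (UE U : (I → ZFSet.{u}) → (I → ZFSet.{u}) → Prop) := by
    rw [wellFounded_iff_isEmpty_descending_chain]
    refine ⟨fun ⟨F, hF⟩ => ?_⟩
    have h1 := hU (fun n => {i | F (n+1) i ∈ F n i}) hF
    obtain ⟨i, hi⟩ := U.neBot.nonempty_of_mem h1
    rw [Set.mem_iInter] at hi
    have h2 : ¬ ∃ G : ℕ → ZFSet.{u}, ∀ n, G (n+1) ∈ G n := by
      have := wellFounded_iff_isEmpty_descending_chain.1 (ZFSet.mem_wf.{u})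
      rintro ⟨G, hG⟩
      exact this.false ⟨G, hG⟩
    exact h2 ⟨fun n => F n i, hi⟩
  intro f
  induction f using wf.induction with
  | _ f ih =>
    classical
    -- representatives of the members of `f`
    let Rp : Type (max w (u+1)) := {g : I → ZFSet.{u} // UE U g f ∧ ∀ i, g i ∈ (insert ∅ (f i) : ZFSet.{u})}
    have hsm : Small.{u} {g : I → ZFSet.{u} // ∀ i, g i ∈ (insert ∅ (f i) : ZFSet.{u})} := by
      have h1 : Small.{u} (∀ i : I, ((insert ∅ (f i) : ZFSet.{u}) : Type (u+1))) := inferInstance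
      refine small_of_injective (β := ∀ i : I, ((insert ∅ (f i) : ZFSet.{u}) : Type (u+1)))
        (f := fun g i => ⟨g.1 i, g.2 i⟩) ?_
      intro g g' h
      apply Subtype.ext
      funext i
      have := congrFun h i
      exact congrArg Subtype.val this
    have hsm' : Small.{u} Rp := by
      refine small_of_injective (β := {g : I → ZFSet.{u} // ∀ i, g i ∈ (insert ∅ (f i) : ZFSet.{u})})
        (f := fun g => ⟨g.1, g.2.2⟩) ?_
      intro g g' h
      have h2 : g.1 = g'.1 := by
        have := congrArg (fun z : {g : I → ZFSet.{u} // ∀ i, g i ∈ (insert ∅ (f i) : ZFSet.{u})} =>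
          z.1) h
        exact this
      exact Subtype.ext h2
    have hx : ∀ g : Rp, ∃ x, Coll U g.1 x := fun g => ih g.1 g.2.1
    choose c hc using hx
    refine ⟨ZFSet.range c, fun f' x' => Coll U f' x' ∨ (f' = f ∧ x' = ZFSet.range c), ?_,
      Or.inr ⟨rfl, rfl⟩⟩
    rintro f' x' (h | ⟨rfl, rfl⟩)
    · constructor
      · intro g hg
        obtain ⟨y, hy, hy'⟩ := h.fst hg
        exact ⟨y, hy, Or.inl hy'⟩
      · intro y hy
        obtain ⟨g, hg, hgy⟩ := h.snd hy
        exact ⟨g, hg, Or.inl hgy⟩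
    · constructor
      · intro g hg
        set g' : I → ZFSet.{u} := fun i => if g i ∈ f' i then g i else ∅ with hg'
        have hq : UQ U g g' := by
          filter_upwards [hg] with i hi
          show g i = if g i ∈ f' i then g i else ∅
          rw [if_pos hi]
        let G : Rp := ⟨g', hg.congr hq (UQ.refl _), fun i => by
          rw [hg']
          by_cases hi : g i ∈ f' i
          · simp only [if_pos hi]; exact ZFSet.mem_insert_of_mem _ hi
          · simp only [if_neg hi]; exact ZFSet.mem_insert _ _⟩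
        exact ⟨c G, ZFSet.mem_range.2 ⟨G, rfl⟩, Or.inl ((hc G).congr hq.symm)⟩
      · intro y hy
        obtain ⟨G, rfl⟩ := ZFSet.mem_range.1 hy
        exact ⟨G.1, G.2.1, Or.inl (hc G)⟩

end Pool.Agent.SingleUlt
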