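import Pool.Agent.SingleUlt.Normal

/-! # Normal measures: the seed, completeness, well-foundedness -/

namespace Pool.Agent.SingleUlt

open Function Filter Cardinal Ordinal

universe u w w'

variable {κ : Cardinal.{u}} {U : Ultrafilter (Idx κ)}

theorem IsNormalMeasure.countable_inter (h : IsNormalMeasure κ U) (S : ℕ → Set (Idx κ))
    (hS : ∀ n, S n ∈ U) : (⋂ n, S n) ∈ U := by
  have h1 := h.complete (Set.range S) (by
    refine lt_of_le_of_lt (Set.countable_range S).le_aleph0 ?_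
    rw [← Cardinal.lift_aleph0.{u+1, u}, Cardinal.lift_lt]
    exact h.uncountable) (by rintro _ ⟨n, rfl⟩; exact hS n)
  rwa [Set.sInter_range] at h1

theorem IsNormalMeasure.tot (h : IsNormalMeasure κ U) :
    ∀ f : Idx κ → ZFSet.{u}, ∃ x, Coll U f x :=
  tot_of_countably_complete h.countable_inter

theorem IsNormalMeasure.tail (h : IsNormalMeasure κ U) (c : Idx κ) : {i | c < i} ∈ U := by
  have h1 := h.complete ((fun a : Idx κ => ({a}ᶜ : Set (Idx κ))) '' Set.Iic c) (by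
    refine lt_of_le_of_lt mk_image_le ?_
    have h2 : #(Set.Iic c) ≤ #(Set.Iio (Order.succ c.1)) := by
      refine mk_le_of_injective (f := fun a : Set.Iic c => ⟨a.1.1, ?_⟩) ?_
      · exact Order.lt_succ_of_le (show a.1.1 ≤ c.1 from a.2)
      · intro a b hab
        have := congrArg Subtype.val hab
        exact Subtype.ext (Subtype.ext this)
    refine lt_of_le_of_lt h2 ?_
    rw [Cardinal.mk_Iio_ordinal, Cardinal.lift_lt, ← Cardinal.lt_ord]
    exact (isSuccLimit_ord h.uncountable.le).succ_lt c.2) (by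
    rintro _ ⟨a, _, rfl⟩
    exact h.nonprincipal a)
  refine mem_of_superset h1 fun i hi => ?_
  by_contra hc
  have : i ≤ c := not_lt.1 hc
  exact hi ({i}ᶜ) ⟨i, this, rfl⟩ rfl

/-- the set of ordinals below `κ` as an element of the universe -/
noncomputable abbrev kap (κ : Cardinal.{u}) : ZFSet.{u} := κ.ord.toZFSet

/-- an index as an ordinal of the universe -/
noncomputable abbrev o (i : Idx κ) : ZFSet.{u} := i.1.toZFSet

theorem o_injective : Injective (o : Idx κ → ZFSet.{u}) := fun _ _ h =>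
  Subtype.ext (Ordinal.toZFSet_injective h)

theorem IsNormalMeasure.regressive (h : IsNormalMeasure κ U) {f : Idx κ → ZFSet.{u}}
    (hf : ∀ᶠ i in (U : Filter (Idx κ)), f i ∈ o i) :
    ∃ c : Idx κ, ∀ᶠ i in (U : Filter (Idx κ)), f i = o c := by
  by_contra hc
  push Not at hc
  have h1 : ∀ c : Idx κ, {i | f i ≠ o c} ∈ U := by
    intro c
    exact hc c
  have h2 := h.normal _ h1
  have h3 : ∀ᶠ i in (U : Filter (Idx κ)), False := by
    filter_upwards [h2, hf] with i hi hi'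
    rw [Ordinal.mem_toZFSet_iff] at hi'
    obtain ⟨a, ha, ha'⟩ := hi'
    have hak : a < κ.ord := lt_trans ha i.2
    exact hi ⟨a, hak⟩ ha ha'.symm
  exact U.neBot.ne (by simpa using h3)

theorem IsNormalMeasure.coll_const (h : IsNormalMeasure κ U) (c : Idx κ) :
    Coll U (fun _ => o c) (o c) := by
  refine ⟨fun f x => ∃ c : Idx κ, UQ U f (fun _ => o c) ∧ x = o c, ?_, c, UQ.refl _, rfl⟩
  rintro f x ⟨c, hf, rfl⟩
  constructor
  · intro g hg
    have hg' : ∀ᶠ i in (U : Filter (Idx κ)), g i ∈ o c := by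
      filter_upwards [hg, hf] with i h1 h2
      rwa [h2] at h1
    have hg'' : ∀ᶠ i in (U : Filter (Idx κ)), g i ∈ o i := by
      filter_upwards [hg', h.tail c] with i h1 h2
      exact (Ordinal.toZFSet_subset_toZFSet_iff.2 (le_of_lt h2)) h1
    obtain ⟨d, hd⟩ := h.regressive hg''
    refine ⟨o d, ?_, d, hd, rfl⟩
    obtain ⟨i, hi1, hi2⟩ := (hd.and hg').exists
    rwa [hi1] at hi2
  · intro y hy
    rw [Ordinal.mem_toZFSet_iff] at hy
    obtain ⟨a, ha, rfl⟩ := hy
    refine ⟨fun _ => a.toZFSet, ?_, ⟨a, lt_trans ha c.2⟩, UQ.refl _, rfl⟩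
    filter_upwards [hf] with i hi
    rw [hi]
    exact Ordinal.toZFSet_mem_toZFSet_iff.2 ha

theorem IsNormalMeasure.coll_id (h : IsNormalMeasure κ U) : Coll U o (kap κ) := by
  refine ⟨fun f x => Coll U f x ∨ (f = o ∧ x = kap κ), ?_, Or.inr ⟨rfl, rfl⟩⟩
  rintro f x (hc | ⟨rfl, rfl⟩)
  · constructor
    · intro g hg
      obtain ⟨y, hy, hy'⟩ := hc.fst hg
      exact ⟨y, hy, Or.inl hy'⟩
    · intro y hy
      obtain ⟨g, hg, hgy⟩ := hc.snd hy
      exact ⟨g, hg, Or.inl hgy⟩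
  · constructor
    · intro g hg
      obtain ⟨c, hc⟩ := h.regressive hg
      refine ⟨o c, ?_, Or.inl ((h.coll_const c).congr (UQ.symm hc))⟩
      exact Ordinal.toZFSet_mem_toZFSet_iff.2 c.2
    · intro y hy
      rw [Ordinal.mem_toZFSet_iff] at hy
      obtain ⟨a, ha, rfl⟩ := hy
      refine ⟨fun _ => a.toZFSet, ?_, Or.inl (h.coll_const ⟨a, ha⟩)⟩
      filter_upwards [h.tail ⟨a, ha⟩] with i hi
      exact Ordinal.toZFSet_mem_toZFSet_iff.2 hi

/-- `X ∈ U` iff `κ ∈ j_U(X)` -/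
theorem IsNormalMeasure.mem_iff (h : IsNormalMeasure κ U) (X : ZFSet.{u}) {x : ZFSet.{u}}
    (hx : Coll U (fun _ => X) x) : {i | o i ∈ X} ∈ U ↔ kap κ ∈ x := by
  rw [← hx.mem_iff h.coll_id]
  exact Iff.rfl

/-- every set of indices is given by a subset of `κ` -/
theorem exists_subset (S : Set (Idx κ)) :
    ∃ X : ZFSet.{u}, X ⊆ kap κ ∧ {i | o i ∈ X} = S := by
  refine ⟨ZFSet.range fun s : S => o s.1, ?_, ?_⟩
  · intro z hz
    rw [ZFSet.mem_range] at hz
    obtain ⟨s, rfl⟩ := hz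
    exact Ordinal.toZFSet_mem_toZFSet_iff.2 s.1.2
  · ext i
    rw [Set.mem_ofPred_eq, ZFSet.mem_range]
    constructor
    · rintro ⟨s, hs⟩
      rw [← o_injective hs]; exact s.2
    · intro hi
      exact ⟨⟨i, hi⟩, rfl⟩

theorem ultrafilter_ext {U W : Ultrafilter (Idx κ)}
    (h : ∀ X : ZFSet.{u}, X ⊆ kap κ → ({i | o i ∈ X} ∈ U → {i | o i ∈ X} ∈ W)) : U = W := by
  symm
  apply Ultrafilter.coe_le_coe.1
  intro S hS
  obtain ⟨X, hX, rfl⟩ := exists_subset S
  exact h X hX hS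

end Pool.Agent.SingleUlt
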