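import Mathlib

/-! # Formulas of set theory, ultrapowers of the universe, transitive collapse -/

namespace Pool.Agent.SingleUlt

open Function Filter

universe u w w'

/-- First-order formulas of the language of set theory, with named variables `x_0, x_1, ...`. -/
inductive Fml : Type
  | mem (i j : ℕ) : Fml
  | eq (i j : ℕ) : Fml
  | neg (φ : Fml) : Fml
  | and (φ ψ : Fml) : Fml
  | all (i : ℕ) (φ : Fml) : Fml

/-- Tarskian satisfaction in a domain `M` with interpretations `Q` of equality and `E` of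
membership. -/
def Fml.Sat {M : Type w} (Q E : M → M → Prop) : Fml → (ℕ → M) → Prop
  | .mem i j, v => E (v i) (v j)
  | .eq i j, v => Q (v i) (v j)
  | .neg φ, v => ¬ φ.Sat Q E v
  | .and φ ψ, v => φ.Sat Q E v ∧ ψ.Sat Q E v
  | .all i φ, v => ∀ a, φ.Sat Q E (update v i a)

/-- Truth in the universe `(ZFSet, =, ∈)`. -/
abbrev Fml.Tr (φ : Fml) (v : ℕ → ZFSet.{u}) : Prop := φ.Sat (· = ·) (· ∈ ·) v

section Ultrapower

variable {I : Type w} (U : Ultrafilter I)

/-- equality in the ultrapower -/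
def UQ (f g : I → ZFSet.{u}) : Prop := ∀ᶠ i in (U : Filter I), f i = g i

/-- membership in the ultrapower -/
def UE (g f : I → ZFSet.{u}) : Prop := ∀ᶠ i in (U : Filter I), g i ∈ f i

theorem los (φ : Fml) : ∀ F : ℕ → I → ZFSet.{u},
    φ.Sat (UQ U) (UE U) F ↔ ∀ᶠ i in (U : Filter I), φ.Tr (fun n => F n i) := by
  induction φ with
  | mem i j => intro F; exact Iff.rfl
  | eq i j => intro F; exact Iff.rfl
  | neg φ ih =>
    intro F
    show ¬ φ.Sat (UQ U) (UE U) F ↔ ∀ᶠ i in (U : Filter I), ¬ φ.Tr (fun n => F n i)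
    rw [ih, Ultrafilter.eventually_not]
  | and φ ψ ih1 ih2 =>
    intro F
    show (φ.Sat (UQ U) (UE U) F ∧ ψ.Sat (UQ U) (UE U) F) ↔
      ∀ᶠ i in (U : Filter I), (φ.Tr (fun n => F n i) ∧ ψ.Tr (fun n => F n i))
    rw [ih1, ih2, eventually_and]
  | all k φ ih =>
    intro F
    have key : ∀ (g : I → ZFSet.{u}) (i : I),
        (fun n => update F k g n i) = update (fun n => F n i) k (g i) := by
      intro g i
      funext n
      by_cases h : n = k
      · subst h; simp
      · simp [update_of_ne h]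
    show (∀ g, φ.Sat (UQ U) (UE U) (update F k g)) ↔
      ∀ᶠ i in (U : Filter I), ∀ a, φ.Tr (update (fun n => F n i) k a)
    constructor
    · intro h
      by_contra hc
      rw [← Ultrafilter.eventually_not] at hc
      have h2 : ∀ i, ∃ a : ZFSet.{u}, (¬ ∀ a, φ.Tr (update (fun n => F n i) k a)) →
          ¬ φ.Tr (update (fun n => F n i) k a) := by
        intro i
        by_cases hi : ∀ a, φ.Tr (update (fun n => F n i) k a)
        · exact ⟨∅, fun h => absurd hi h⟩
        · push Not at hi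
          obtain ⟨a, ha⟩ := hi
          exact ⟨a, fun _ => ha⟩
      choose g hg using h2
      have h3 := (ih _).1 (h g)
      have h4 : ∀ᶠ i in (U : Filter I), False := by
        filter_upwards [hc, h3] with i hi1 hi2
        rw [key] at hi2
        exact hg i hi1 hi2
      exact (U.neBot.ne (by simpa using h4))
    · intro h g
      rw [ih]
      filter_upwards [h] with i hi
      rw [key]
      exact hi _

/-- a bisimulation between the ultrapower and the universe -/
def Bis (B : (I → ZFSet.{u}) → ZFSet.{u} → Prop) : Prop :=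
  ∀ f x, B f x → (∀ g, UE U g f → ∃ y, y ∈ x ∧ B g y) ∧ (∀ y, y ∈ x → ∃ g, UE U g f ∧ B g y)

/-- `x` is the collapse of the class of `f` -/
def Coll (f : I → ZFSet.{u}) (x : ZFSet.{u}) : Prop := ∃ B, Bis U B ∧ B f x

variable {U}

theorem Coll.fst {f : I → ZFSet.{u}} {x} (h : Coll U f x) {g} (hg : UE U g f) :
    ∃ y, y ∈ x ∧ Coll U g y := by
  obtain ⟨B, hB, hfx⟩ := h
  obtain ⟨y, hy, hy'⟩ := (hB f x hfx).1 g hg
  exact ⟨y, hy, B, hB, hy'⟩

theorem Coll.snd {f : I → ZFSet.{u}} {x} (h : Coll U f x) {y} (hy : y ∈ x) :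
    ∃ g, UE U g f ∧ Coll U g y := by
  obtain ⟨B, hB, hfx⟩ := h
  obtain ⟨g, hg, hy'⟩ := (hB f x hfx).2 y hy
  exact ⟨g, hg, B, hB, hy'⟩

theorem bis_coll : Bis U (Coll U : (I → ZFSet.{u}) → ZFSet.{u} → Prop) :=
  fun _ _ h => ⟨fun _ hg => h.fst hg, fun _ hy => h.snd hy⟩

theorem Coll.unique {x : ZFSet.{u}} : ∀ {f : I → ZFSet.{u}} {y : ZFSet.{u}},
    Coll U f x → Coll U f y → x = y := by
  induction x using ZFSet.inductionOn with
  | _ x ih =>
    intro f y h1 h2
    ext z
    constructor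
    · intro hz
      obtain ⟨g, hg, hgz⟩ := h1.snd hz
      obtain ⟨z', hz', hgz'⟩ := h2.fst hg
      rw [ih z hz hgz hgz']
      exact hz'
    · intro hz
      obtain ⟨g, hg, hgz⟩ := h2.snd hz
      obtain ⟨z', hz', hgz'⟩ := h1.fst hg
      rw [← ih z' hz' hgz' hgz]
      exact hz'

theorem UE.congr {g g' f f' : I → ZFSet.{u}} (hg : UQ U g g') (hf : UQ U f f') (h : UE U g f) :
    UE U g' f' := by
  filter_upwards [hg, hf, h] with i h1 h2 h3
  rw [← h1, ← h2]; exact h3

theorem UQ.refl (f : I → ZFSet.{u}) : UQ U f f := Eventually.of_forall fun _ => rfl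

theorem UQ.symm {f g : I → ZFSet.{u}} (h : UQ U f g) : UQ U g f := by
  filter_upwards [h] with i hi using hi.symm

theorem UQ.trans {f g k : I → ZFSet.{u}} (h : UQ U f g) (h' : UQ U g k) : UQ U f k := by
  filter_upwards [h, h'] with i hi hi' using hi.trans hi'

theorem Coll.congr {f f' : I → ZFSet.{u}} {x} (h : Coll U f x) (hf : UQ U f f') :
    Coll U f' x := by
  refine ⟨fun k y => ∃ k', UQ U k' k ∧ Coll U k' y, ?_, f, hf, h⟩
  rintro k y ⟨k', hk, hky⟩
  constructor
  · intro g hg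
    obtain ⟨z, hz, hgz⟩ := hky.fst (hg.congr (UQ.refl g) hk.symm)
    exact ⟨z, hz, g, UQ.refl g, hgz⟩
  · intro z hz
    obtain ⟨g, hg, hgz⟩ := hky.snd hz
    exact ⟨g, hg.congr (UQ.refl g) hk, g, UQ.refl g, hgz⟩

theorem Coll.inj {x : ZFSet.{u}} : ∀ {f f' : I → ZFSet.{u}},
    Coll U f x → Coll U f' x → UQ U f f' := by
  induction x using ZFSet.inductionOn with
  | _ x ih =>
    -- one-sided statement
    have key : ∀ {f f' : I → ZFSet.{u}}, Coll U f x → Coll U f' x →
        ∀ᶠ i in (U : Filter I), ∀ z, z ∈ f i → z ∈ f' i := by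
      intro f f' h1 h2
      by_contra hc
      rw [← Ultrafilter.eventually_not] at hc
      have h3 : ∀ i, ∃ z : ZFSet.{u}, (¬ ∀ z, z ∈ f i → z ∈ f' i) → (z ∈ f i ∧ z ∉ f' i) := by
        intro i
        by_cases hi : ∀ z, z ∈ f i → z ∈ f' i
        · exact ⟨∅, fun h => absurd hi h⟩
        · push Not at hi
          obtain ⟨z, hz⟩ := hi
          exact ⟨z, fun _ => hz⟩
      choose g hg using h3
      have hgf : UE U g f := by
        filter_upwards [hc] with i hi using (hg i hi).1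
      obtain ⟨y, hy, hgy⟩ := h1.fst hgf
      obtain ⟨g', hg', hgy'⟩ := h2.snd hy
      have hq := ih y hy hgy hgy'
      have h4 : ∀ᶠ i in (U : Filter I), False := by
        filter_upwards [hc, hq, hg'] with i hi1 hi2 hi3
        exact (hg i hi1).2 (hi2 ▸ hi3)
      exact (U.neBot.ne (by simpa using h4))
    intro f f' h1 h2
    filter_upwards [key h1 h2, key h2 h1] with i hi1 hi2
    ext z
    exact ⟨hi1 z, hi2 z⟩

theorem Coll.mem_iff {f g : I → ZFSet.{u}} {x y : ZFSet.{u}} (hf : Coll U f x)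
    (hg : Coll U g y) : UE U g f ↔ y ∈ x := by
  constructor
  · intro h
    obtain ⟨y', hy', hgy'⟩ := hf.fst h
    rw [hg.unique hgy']; exact hy'
  · intro h
    obtain ⟨g', hg', hgy'⟩ := hf.snd h
    exact hg'.congr (hgy'.inj hg) (UQ.refl f)

theorem Coll.eq_iff {f g : I → ZFSet.{u}} {x y : ZFSet.{u}} (hf : Coll U f x)
    (hg : Coll U g y) : UQ U f g ↔ x = y := by
  constructor
  · intro h
    exact (hf.congr h).unique hg
  · rintro rfl
    exact hf.inj hg

end Ultrapower

/-- If two ultrapowers have the same collapse, corresponding elements satisfy the same formulas. -/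
theorem sat_rel {I : Type w} {J : Type w'} {U : Ultrafilter I} {W : Ultrafilter J}
    (h1 : ∀ f : I → ZFSet.{u}, ∃ x, Coll U f x ∧ ∃ g, Coll W g x)
    (h2 : ∀ g : J → ZFSet.{u}, ∃ x, Coll W g x ∧ ∃ f, Coll U f x) (φ : Fml) :
    ∀ (F : ℕ → I → ZFSet.{u}) (G : ℕ → J → ZFSet.{u}),
      (∀ n, ∃ x, Coll U (F n) x ∧ Coll W (G n) x) →
      (φ.Sat (UQ U) (UE U) F ↔ φ.Sat (UQ W) (UE W) G) := by
  induction φ with
  | mem i j =>
    intro F G h
    obtain ⟨x, hx, hx'⟩ := h i
    obtain ⟨y, hy, hy'⟩ := h j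
    show UE U (F i) (F j) ↔ UE W (G i) (G j)
    rw [hy.mem_iff hx, hy'.mem_iff hx']
  | eq i j =>
    intro F G h
    obtain ⟨x, hx, hx'⟩ := h i
    obtain ⟨y, hy, hy'⟩ := h j
    show UQ U (F i) (F j) ↔ UQ W (G i) (G j)
    rw [hx.eq_iff hy, hx'.eq_iff hy']
  | neg φ ih =>
    intro F G h
    exact not_congr (ih F G h)
  | and φ ψ ih1 ih2 =>
    intro F G h
    exact and_congr (ih1 F G h) (ih2 F G h)
  | all k φ ih =>
    intro F G h
    have up : ∀ (f : I → ZFSet.{u}) (g : J → ZFSet.{u}) (x : ZFSet.{u}), Coll U f x → Coll W g x →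
        ∀ n, ∃ x, Coll U (update F k f n) x ∧ Coll W (update G k g n) x := by
      intro f g x hf hg n
      by_cases hn : n = k
      · subst hn; simp only [update_self]; exact ⟨x, hf, hg⟩
      · rw [update_of_ne hn, update_of_ne hn]; exact h n
    show (∀ f, φ.Sat (UQ U) (UE U) (update F k f)) ↔ (∀ g, φ.Sat (UQ W) (UE W) (update G k g))
    constructor
    · intro H g
      obtain ⟨x, hx, f, hf⟩ := h2 g
      exact (ih _ _ (up f g x hf hx)).1 (H f)
    · intro H f
      obtain ⟨x, hx, g, hg⟩ := h1 f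
      exact (ih _ _ (up f g x hx hg)).2 (H g)

end Pool.Agent.SingleUlt
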