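import Pool.Agent.SingleUlt.Bridge

/-! # Ultrapowers with the same collapse: the embeddings agree on ordinals (Woodin) -/

namespace Pool.Agent.SingleUlt

open Function Filter

universe u w w'

/-! ## transport of `Coll` along an equivalence of index types -/

theorem UE_map {I : Type w} {J : Type w'} (U : Ultrafilter I) (ε : I ≃ J)
    (g f : J → ZFSet.{u}) : UE (U.map ε) g f ↔ UE U (g ∘ ε) (f ∘ ε) := Iff.rfl

theorem Coll_map {I : Type w} {J : Type w'} (U : Ultrafilter I) (ε : I ≃ J)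
    (f : J → ZFSet.{u}) (x : ZFSet.{u}) : Coll (U.map ε) f x ↔ Coll U (f ∘ ε) x := by
  constructor
  · intro h
    refine ⟨fun f x => Coll (U.map ε) (f ∘ ε.symm) x, ?_, ?_⟩
    · intro f' x' h'
      constructor
      · intro g hg
        have : UE (U.map ε) (g ∘ ε.symm) (f' ∘ ε.symm) := by
          rw [UE_map]; simpa [Function.comp_assoc] using hg
        obtain ⟨y, hy, hy'⟩ := h'.fst this
        exact ⟨y, hy, hy'⟩
      · intro y hy
        obtain ⟨g, hg, hgy⟩ := h'.snd hy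
        rw [UE_map] at hg
        refine ⟨g ∘ ε, by simpa [Function.comp_assoc] using hg, ?_⟩
        simpa [Function.comp_assoc] using hgy
    · simpa [Function.comp_assoc] using h
  · intro h
    refine ⟨fun f x => Coll U (f ∘ ε) x, ?_, h⟩
    intro f' x' h'
    constructor
    · intro g hg
      rw [UE_map] at hg
      exact h'.fst hg
    · intro y hy
      obtain ⟨g, hg, hgy⟩ := h'.snd hy
      refine ⟨g ∘ ε.symm, ?_, ?_⟩
      · rw [UE_map]; simpa [Function.comp_assoc] using hg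
      · simpa [Function.comp_assoc] using hgy

/-! ## codes for ultrafilters on types -/

section Code

variable {I : Type w} [Small.{u} I] (U : Ultrafilter I) (e : I → ZFSet.{u})

/-- the code of a set of indices -/
noncomputable def codeSet (S : Set I) : ZFSet.{u} := ZFSet.range fun s : S => e s

noncomputable def codeI : ZFSet.{u} := ZFSet.range e

noncomputable def codeU : ZFSet.{u} := ZFSet.range fun S : {S : Set I // S ∈ U} => codeSet e S.1

theorem mem_codeSet {S : Set I} {z : ZFSet.{u}} : z ∈ codeSet e S ↔ ∃ i, i ∈ S ∧ e i = z := by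
  rw [codeSet, ZFSet.mem_range]
  constructor
  · rintro ⟨s, hs⟩; exact ⟨s.1, s.2, hs⟩
  · rintro ⟨i, hi, h⟩; exact ⟨⟨i, hi⟩, h⟩

theorem mem_codeI {z : ZFSet.{u}} : z ∈ codeI e ↔ ∃ i, e i = z := by
  rw [codeI, ZFSet.mem_range]

theorem mem_codeU {z : ZFSet.{u}} : z ∈ codeU U e ↔ ∃ S, S ∈ U ∧ z = codeSet e S := by
  rw [codeU, ZFSet.mem_range]
  constructor
  · rintro ⟨S, hS⟩; exact ⟨S.1, S.2, hS.symm⟩
  · rintro ⟨S, hS, h⟩; exact ⟨⟨S, hS⟩, h.symm⟩

variable {e}

theorem codeUF (he : Injective e) : cUF (codeI e) (codeU U e) := by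
  refine ⟨⟨_, (mem_codeU U e).2 ⟨Set.univ, univ_mem, rfl⟩⟩, ?_, ?_, ?_⟩
  · intro X hX Y hY
    rw [mem_codeU] at hX hY
    obtain ⟨S, hS, rfl⟩ := hX
    obtain ⟨T, hT, rfl⟩ := hY
    refine ⟨codeSet e (S ∩ T), (mem_codeU U e).2 ⟨_, inter_mem hS hT, rfl⟩, ?_⟩
    intro i hi
    rw [mem_codeSet] at hi
    obtain ⟨j, hj, rfl⟩ := hi
    exact ⟨(mem_codeSet e).2 ⟨j, hj.1, rfl⟩, (mem_codeSet e).2 ⟨j, hj.2, rfl⟩⟩
  · intro X hX
    rw [mem_codeU] at hX
    obtain ⟨S, hS, rfl⟩ := hX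
    obtain ⟨j, hj⟩ := U.neBot.nonempty_of_mem hS
    exact ⟨e j, (mem_codeSet e).2 ⟨j, hj, rfl⟩, (mem_codeI e).2 ⟨j, rfl⟩⟩
  · intro S
    by_cases h : {i | e i ∈ S} ∈ U
    · refine Or.inl ⟨codeSet e {i | e i ∈ S}, (mem_codeU U e).2 ⟨_, h, rfl⟩, ?_⟩
      intro z hz _
      rw [mem_codeSet] at hz
      obtain ⟨j, hj, rfl⟩ := hz
      exact hj
    · rw [← Ultrafilter.compl_mem_iff_notMem] at h
      refine Or.inr ⟨codeSet e {i | e i ∈ S}ᶜ, (mem_codeU U e).2 ⟨_, h, rfl⟩, ?_⟩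
      intro z hz _
      rw [mem_codeSet] at hz
      obtain ⟨j, hj, rfl⟩ := hz
      exact hj

/-- the index type and the type of elements of its code -/
noncomputable def codeEquiv (he : Injective e) : I ≃ codeI e :=
  Equiv.ofBijective (fun i => ⟨e i, (mem_codeI e).2 ⟨i, rfl⟩⟩)
    ⟨fun i j h => he (by simpa using h), fun z => by
      obtain ⟨i, hi⟩ := (mem_codeI e).1 z.2
      exact ⟨i, Subtype.ext hi⟩⟩

theorem codeEquiv_apply (he : Injective e) (i : I) : (codeEquiv he i : ZFSet.{u}) = e i := rfl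

theorem toUF_code (he : Injective e) : toUF (codeUF U he) = U.map (codeEquiv he) := by
  apply Ultrafilter.coe_injective
  ext S
  rw [mem_toUF]
  constructor
  · rintro ⟨X, hX, hX'⟩
    rw [mem_codeU] at hX
    obtain ⟨T, hT, rfl⟩ := hX
    show codeEquiv he ⁻¹' S ∈ U
    refine mem_of_superset hT fun i hi => ?_
    exact hX' _ ((mem_codeSet e).2 ⟨i, hi, rfl⟩)
  · intro h
    have h' : codeEquiv he ⁻¹' S ∈ U := h
    refine ⟨_, (mem_codeU U e).2 ⟨_, h', rfl⟩, ?_⟩
    intro z hz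
    rw [mem_codeSet] at hz
    obtain ⟨j, hj, hj'⟩ := hz
    have : codeEquiv he j = z := Subtype.ext hj'
    rw [← this]
    exact hj

theorem code_coll (he : Injective e) (f : codeI e → ZFSet.{u}) (x : ZFSet.{u}) :
    Coll (toUF (codeUF U he)) f x ↔ Coll U (f ∘ codeEquiv he) x := by
  rw [toUF_code, Coll_map]

theorem code_cN (he : Injective e) (tot : ∀ f : I → ZFSet.{u}, ∃ x, Coll U f x) :
    cN (codeI e) (codeU U e) := by
  refine ⟨codeUF U he, fun f hf => ?_⟩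
  obtain ⟨φ, hφ⟩ := hf.rep
  obtain ⟨x, hx⟩ := tot (φ ∘ codeEquiv he)
  exact ⟨x, (cCol_iff (codeUF U he) hφ).2 ((code_coll U he φ x).2 hx)⟩

theorem code_cInM (he : Injective e) {x : ZFSet.{u}} :
    cInM (codeI e) (codeU U e) x ↔ ∃ f : I → ZFSet.{u}, Coll U f x := by
  rw [cInM_iff (codeUF U he)]
  constructor
  · rintro ⟨φ, hφ⟩
    exact ⟨_, (code_coll U he φ x).1 hφ⟩
  · rintro ⟨f, hf⟩
    refine ⟨f ∘ (codeEquiv he).symm, (code_coll U he _ x).2 ?_⟩
    simpa [Function.comp_assoc] using hf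

theorem code_cJ (he : Injective e) {α x : ZFSet.{u}} :
    cJ (codeI e) (codeU U e) α x ↔ Coll U (fun _ => α) x := by
  rw [cJ_iff (codeUF U he), code_coll U he]
  exact Iff.rfl

end Code

/-! ## the comparison theorem -/

theorem coll_empty {I : Type w} (U : Ultrafilter I) :
    Coll U (fun _ => (∅ : ZFSet.{u})) (∅ : ZFSet.{u}) := by
  refine ⟨fun f x => f = (fun _ => ∅) ∧ x = ∅, ?_, rfl, rfl⟩
  rintro f x ⟨rfl, rfl⟩
  constructor
  · intro g hg
    have h4 : ∀ᶠ i in (U : Filter I), False := by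
      filter_upwards [hg] with i hi
      exact ZFSet.notMem_empty _ hi
    exact (U.neBot.ne (by simpa using h4)).elim
  · intro y hy
    exact (ZFSet.notMem_empty _ hy).elim

section Agree

variable {I : Type w} {J : Type w'} {U : Ultrafilter I} {W : Ultrafilter J}

/-- elements definable from parameters on which the embeddings agree -/
theorem agree_def (totU : ∀ f : I → ZFSet.{u}, ∃ x, Coll U f x)
    (totW : ∀ g : J → ZFSet.{u}, ∃ x, Coll W g x)
    (hM : ∀ x : ZFSet.{u}, (∃ f, Coll U f x) ↔ ∃ g, Coll W g x)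
    {φ : Fml} {v : ℕ → ZFSet.{u}} {x : ZFSet.{u}}
    (hx : ∀ y, φ.Tr (update v 0 y) ↔ y = x)
    (hv : ∀ n, n ≠ 0 → ∀ z, Coll U (fun _ => v n) z → Coll W (fun _ => v n) z) :
    ∀ z, Coll U (fun _ => x) z → Coll W (fun _ => x) z := by
  intro z hz
  obtain ⟨g, hg⟩ := (hM z).1 ⟨_, hz⟩
  have rel := sat_rel (U := U) (W := W)
    (fun f => by obtain ⟨x, hx⟩ := totU f; exact ⟨x, hx, (hM x).1 ⟨f, hx⟩⟩)
    (fun g => by obtain ⟨x, hx⟩ := totW g; exact ⟨x, hx, (hM x).2 ⟨g, hx⟩⟩) φ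
    (update (fun n _ => v n) 0 (fun _ => x)) (update (fun n _ => v n) 0 g) (by
      intro n
      by_cases hn : n = 0
      · subst hn; simp only [update_self]; exact ⟨z, hz, hg⟩
      · rw [update_of_ne hn, update_of_ne hn]
        obtain ⟨y, hy⟩ := totU (fun _ => v n)
        exact ⟨y, hy, hv n hn y hy⟩)
  rw [los, los] at rel
  have e1 : ∀ i : I, (fun n => update (fun n (_ : I) => v n) 0 (fun _ => x) n i) =
      update v 0 x := by
    intro i
    funext n
    by_cases hn : n = 0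
    · subst hn; simp
    · rw [update_of_ne hn, update_of_ne hn]
  have e2 : ∀ j : J, (fun n => update (fun n (_ : J) => v n) 0 g n j) = update v 0 (g j) := by
    intro i
    funext n
    by_cases hn : n = 0
    · subst hn; simp
    · rw [update_of_ne hn, update_of_ne hn]
  have h1 : ∀ᶠ i in (U : Filter I), φ.Tr
      (fun n => update (fun n (_ : I) => v n) 0 (fun _ => x) n i) := by
    refine Eventually.of_forall fun i => ?_
    rw [e1, hx]
  have h2 := rel.1 h1
  refine hg.congr ?_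
  filter_upwards [h2] with j hj
  rw [e2, hx] at hj
  exact hj

/-- the least counterexample is definable -/
theorem exists_min (h : ∃ α : ZFSet.{u}, α.IsOrdinal ∧ cP α) :
    ∃ φ : Fml, ∃ α : ZFSet.{u}, cP α ∧ ∀ v : ℕ → ZFSet.{u}, φ.Tr v ↔ v 0 = α := by
  obtain ⟨α, ⟨hα, hP⟩, hmin⟩ := ZFSet.mem_wf.has_min {α : ZFSet.{u} | α.IsOrdinal ∧ cP α} h
  have hmin' : ∀ β, β ∈ α → ¬ cP β := fun β hβ hPβ => hmin β ⟨hα.mem hβ, hPβ⟩ hβ
  obtain ⟨φ, hφ⟩ : Dfn 1 (fun v : Fin 1 → ZFSet.{u} =>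
      (v 0).IsOrdinal ∧ cP (v 0) ∧ ∀ β, β ∈ v 0 → ¬ cP β) :=
    (Dfn.ord 0).and ((Dfn.cP 0).and (Dfn.ball 0 (Dfn.cP _).not))
  refine ⟨φ, α, hP, fun v => ?_⟩
  rw [hφ]
  constructor
  · rintro ⟨h1, h2, h3⟩
    have h1' : (v 0).IsOrdinal := h1
    have h2' : cP (v 0) := h2
    have h3' : ∀ β, β ∈ v 0 → ¬ cP β := h3
    rcases h1'.mem_trichotomous hα with h | h | h
    · exact absurd h2' (hmin' _ h)
    · exact h
    · exact absurd hP (h3' _ h)
  · intro h
    show (v 0).IsOrdinal ∧ cP (v 0) ∧ ∀ β, β ∈ v 0 → ¬ cP β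
    rw [h]
    exact ⟨hα, hP, hmin'⟩

theorem not_cP (α : ZFSet.{u}) (hα : α.IsOrdinal) : ¬ cP α := by
  intro hP
  obtain ⟨φ, α, ⟨I, U, J, W, hU, hW, hM, x, hx, hx'⟩, hφ⟩ := exists_min ⟨α, hα, hP⟩
  rw [cJ_iff hU.1] at hx
  rw [cJ_iff hW.1] at hx'
  refine hx' (agree_def (cN_tot hU) (cN_tot hW) ?_ (φ := φ) (v := fun _ => ∅) ?_ ?_ x hx)
  · intro x
    rw [← cInM_iff hU.1, ← cInM_iff hW.1]
    exact hM x
  · intro y
    rw [hφ, update_self]
  · intro n _ z hz
    have h0 : z = ∅ := hz.unique (coll_empty _)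
    rw [h0]
    exact coll_empty _

end Agree

/-- **Ultrapowers with the same transitive collapse have embeddings that agree on ordinals.** -/
theorem agree_ord {I : Type w} {J : Type w'} [Small.{u} I] [Small.{u} J] {U : Ultrafilter I}
    {W : Ultrafilter J} {e : I → ZFSet.{u}} {e' : J → ZFSet.{u}} (he : Injective e)
    (he' : Injective e') (totU : ∀ f : I → ZFSet.{u}, ∃ x, Coll U f x)
    (totW : ∀ g : J → ZFSet.{u}, ∃ x, Coll W g x)
    (hM : ∀ x : ZFSet.{u}, (∃ f, Coll U f x) ↔ ∃ g, Coll W g x)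
    {α : ZFSet.{u}} (hα : α.IsOrdinal) {x : ZFSet.{u}} (hx : Coll U (fun _ => α) x) :
    Coll W (fun _ => α) x := by
  by_contra hc
  refine not_cP α hα ⟨codeI e, codeU U e, codeI e', codeU W e', code_cN U he totU,
    code_cN W he' totW, fun x => ?_, x, ?_, ?_⟩
  · rw [code_cInM U he, code_cInM W he']
    exact hM x
  · rw [code_cJ U he]; exact hx
  · rw [code_cJ W he']; exact hc

end Pool.Agent.SingleUlt
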